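import Mathlib

/-!
# Counting residue classes with conditions modulo primes (helper756)
-/

set_option autoImplicit false

namespace Pool.Agent.N756.RW

open Filter

/-- The residue classes modulo the product of the primes in `T` of the vectors which are in `Ω p`
modulo `p` for all `p ∈ T`. -/
theorem crt_count {ι : Type} [Fintype ι] (T : Finset ℕ) (hT : ∀ p ∈ T, p.Prime)
    (Ω : (p : ℕ) → Set (ι → ZMod p)) (θ : ℕ → ℝ)
    (hΩ : ∀ p ∈ T, ((Ω p).ncard : ℝ) ≤ θ p * (p : ℝ) ^ Fintype.card ι) :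
    ((((fun (c : ι → ℤ) (i : ι) => (c i : ZMod (∏ p ∈ T, p))) ''
      {c : ι → ℤ | ∀ p ∈ T, (fun j => (c j : ZMod p)) ∈ Ω p}).ncard : ℕ) : ℝ) ≤
      (∏ p ∈ T, θ p) * ((∏ p ∈ T, p : ℕ) : ℝ) ^ Fintype.card ι := by
  classical
  set q := ∏ p ∈ T, p with hq
  have hq0 : 0 < q := Finset.prod_pos fun p hp => (hT p hp).pos
  haveI : NeZero q := ⟨hq0.ne'⟩
  haveI hne : ∀ p : T, NeZero (p : ℕ) := fun p => ⟨(hT p p.2).ne_zero⟩
  have hdvd : ∀ p : T, (p : ℕ) ∣ q := fun p => Finset.dvd_prod_of_mem _ p.2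
  let Φ : (ι → ZMod q) → ((p : T) → ι → ZMod (p : ℕ)) :=
    fun x p i => ZMod.castHom (hdvd p) (ZMod (p : ℕ)) (x i)
  have hinj : Function.Injective Φ := by
    intro x y h
    funext i
    obtain ⟨a, ha⟩ := ZMod.intCast_surjective (x i)
    obtain ⟨b, hb⟩ := ZMod.intCast_surjective (y i)
    rw [← ha, ← hb, ZMod.intCast_eq_intCast_iff_dvd_sub]
    have h1 : ∀ p ∈ T, ((p : ℕ) : ℤ) ∣ b - a := by
      intro p hp
      have h2 := congrFun (congrFun h ⟨p, hp⟩) i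
      simp only [Φ, ← ha, ← hb, map_intCast] at h2
      exact (ZMod.intCast_eq_intCast_iff_dvd_sub a b p).1 h2
    rw [hq]
    push_cast
    apply Finset.prod_dvd_of_coprime
    · intro p hp p' hp' hpp
      rw [Function.onFun, Nat.isCoprime_iff_coprime]
      exact (Nat.coprime_primes (hT p hp) (hT p' hp')).2 hpp
    · exact h1
  have hmaps : ∀ x ∈ (fun (c : ι → ℤ) (i : ι) => (c i : ZMod q)) ''
      {c : ι → ℤ | ∀ p ∈ T, (fun j => (c j : ZMod p)) ∈ Ω p},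
      Φ x ∈ Set.pi Set.univ fun p : T => Ω p := by
    rintro _ ⟨c, hc, rfl⟩ p _
    have h1 := hc p p.2
    have h2 : Φ (fun i => (c i : ZMod q)) p = fun j => (c j : ZMod (p : ℕ)) := by
      funext i
      simp only [Φ, map_intCast]
    rw [h2]
    exact h1
  have h3 := Set.ncard_le_ncard_of_injOn Φ hmaps (hinj.injOn) (Set.toFinite _)
  have h4 : (Set.pi Set.univ fun p : T => Ω p).ncard = ∏ p : T, (Ω p).ncard := by
    rw [← Nat.card_coe_set_eq, Nat.card_congr (Equiv.Set.univPi fun p : T => Ω p), Nat.card_pi]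
    exact Finset.prod_congr rfl fun p _ => Nat.card_coe_set_eq _
  rw [h4] at h3
  have h5 : ((∏ p : T, (Ω p).ncard : ℕ) : ℝ) ≤
      (∏ p ∈ T, θ p) * ((q : ℕ) : ℝ) ^ Fintype.card ι := by
    rw [hq]
    push_cast
    rw [← Finset.prod_pow, ← Finset.prod_mul_distrib,
      ← Finset.prod_coe_sort T fun p => θ p * (p : ℝ) ^ Fintype.card ι]
    exact Finset.prod_le_prod (fun p _ => Nat.cast_nonneg _) fun p _ => hΩ p p.2
  exact (Nat.cast_le.2 h3).trans h5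

/-- The choice of the parameter `X`. -/
theorem exists_X (γ : ℝ) (hγ : 0 < γ) (B₁ c X₀ m : ℝ) (ε : ℝ) :
    ∃ X : ℝ, X₀ ≤ X ∧ 1 ≤ X ∧ m ≤ X ^ (1 / 2 : ℝ) ∧ Real.exp 1 * B₁ ≤ X ^ γ ∧
      c + |Real.log ε| + 1 ≤ X ^ (1 / 4 : ℝ) := by
  have h1 := (tendsto_rpow_atTop (show (0 : ℝ) < 1 / 2 by norm_num)).eventually_ge_atTop m
  have h2 := (tendsto_rpow_atTop hγ).eventually_ge_atTop (Real.exp 1 * B₁)
  have h3 := (tendsto_rpow_atTop (show (0 : ℝ) < 1 / 4 by norm_num)).eventually_ge_atTop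
    (c + |Real.log ε| + 1)
  obtain ⟨X, hX⟩ := ((eventually_ge_atTop X₀).and ((eventually_ge_atTop 1).and
    (h1.and (h2.and h3)))).exists
  exact ⟨X, hX.1, hX.2.1, hX.2.2.1, hX.2.2.2.1, hX.2.2.2.2⟩

/-- The final inequality. -/
theorem final_P (r A C : ℕ) (γ η ε B₁ X : ℝ) (k : ℕ) (hB₁ : 1 ≤ B₁) (hX1 : 1 ≤ X)
    (hε : 0 < ε) (hη0 : 0 < η) (hη1 : η < 1 / 4) (hηA : 4 * (η * (A + 1)) ≤ 1)
    (hk : X ^ (1 - η) ≤ (k : ℝ)) (h1 : Real.exp 1 * B₁ ≤ X ^ γ)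
    (h2 : (r * C : ℝ) + |Real.log ε| + 1 ≤ X ^ (1 / 4 : ℝ)) :
    Real.exp (r * (X ^ η * (C * (X ^ η) ^ A))) * (B₁ * X ^ (-γ)) ^ k ≤ ε := by
  have hX0 : 0 < X := by linarith
  have hXγ : 0 < X ^ γ := Real.rpow_pos_of_pos hX0 _
  have e1 : B₁ * X ^ (-γ) ≤ Real.exp (-1) := by
    rw [Real.rpow_neg hX0.le, ← div_eq_mul_inv, div_le_iff₀ hXγ, Real.exp_neg]
    rw [inv_mul_eq_div, le_div_iff₀ (Real.exp_pos 1)]
    linarith
  have e2 : (B₁ * X ^ (-γ)) ^ k ≤ Real.exp (-(k : ℝ)) := by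
    have e3 := pow_le_pow_left₀ (by positivity) e1 k
    rw [← Real.exp_nat_mul] at e3
    refine e3.trans (le_of_eq ?_)
    congr 1
    ring
  have e4 : r * (X ^ η * (C * (X ^ η) ^ A)) ≤ (r * C : ℝ) * X ^ (1 / 4 : ℝ) := by
    have e5 : X ^ η * (X ^ η) ^ A = X ^ (η * (A + 1)) := by
      rw [← Real.rpow_natCast (X ^ η) A, ← Real.rpow_mul hX0.le, ← Real.rpow_add hX0]
      congr 1
      ring
    have e6 : X ^ (η * (A + 1)) ≤ X ^ (1 / 4 : ℝ) :=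
      Real.rpow_le_rpow_of_exponent_le hX1 (by linarith)
    calc (r : ℝ) * (X ^ η * (C * (X ^ η) ^ A)) = (r * C : ℝ) * (X ^ η * (X ^ η) ^ A) := by ring
      _ ≤ (r * C : ℝ) * X ^ (1 / 4 : ℝ) := by
          rw [e5]
          exact mul_le_mul_of_nonneg_left e6 (by positivity)
  have e7 : X ^ (3 / 4 : ℝ) ≤ (k : ℝ) :=
    (Real.rpow_le_rpow_of_exponent_le hX1 (by linarith)).trans hk
  obtain ⟨Y, hY⟩ : ∃ Y : ℝ, Y = X ^ (1 / 4 : ℝ) := ⟨_, rfl⟩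
  have e8 : X ^ (3 / 4 : ℝ) = Y ^ 3 := by
    rw [hY, ← Real.rpow_natCast, ← Real.rpow_mul hX0.le]
    norm_num
  rw [← hY] at h2 e4
  rw [e8] at e7
  have hrC : (0 : ℝ) ≤ r * C := by positivity
  have habs : 0 ≤ |Real.log ε| := abs_nonneg _
  have hY1 : 1 ≤ Y := by linarith
  have e9 : (r * C : ℝ) * Y - Y ^ 3 ≤ Real.log ε := by
    have e10 : -|Real.log ε| ≤ Real.log ε := neg_abs_le _
    have e11 : (r * C : ℝ) + |Real.log ε| ≤ Y - 1 := by linarith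
    nlinarith [mul_nonneg (sub_nonneg.2 hY1) (sub_nonneg.2 hY1), mul_nonneg hrC (sub_nonneg.2 hY1),
      mul_nonneg habs (sub_nonneg.2 hY1), mul_nonneg (mul_nonneg (sub_nonneg.2 hY1)
      (sub_nonneg.2 hY1)) (sub_nonneg.2 hY1)]
  calc Real.exp (r * (X ^ η * (C * (X ^ η) ^ A))) * (B₁ * X ^ (-γ)) ^ k
      ≤ Real.exp ((r * C : ℝ) * Y) * Real.exp (-(k : ℝ)) :=
        mul_le_mul (Real.exp_le_exp.2 e4) e2 (by positivity) (Real.exp_pos _).le
    _ = Real.exp ((r * C : ℝ) * Y - k) := by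
        rw [← Real.exp_add]
        congr 1
    _ ≤ Real.exp (Real.log ε) := Real.exp_le_exp.2 (by linarith)
    _ = ε := Real.exp_log hε

end Pool.Agent.N756.RW
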