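import Pool.Agent.N890.DU.MainA
import Pool.Agent.N24.RW.Defs
import Pool.Agent.N756.RW.Crt

/-!
# The residue classes of the members with a Selmer class (helper756)

Project DU (helper890), `CoreA` and `MainA`, with residue classes modulo one integer instead of boxes.
-/

set_option autoImplicit false

namespace Pool.Agent.N756.RW

open NumberField WeierstrassCurve Pool.Agent.TH942 Pool.Agent.TH954 Pool.Agent.H901R3.MS
open Pool.Agent.N89.CI Pool.Agent.N890.FD Pool.Agent.N890.US Pool.Agent.N890.DU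
open Pool.Agent.Y213.T6 (exists_redW bc_eq)

open scoped Classical in
theorem coreP {r : ℕ} {ι : Type} [Fintype ι] (a b : Fin r → ℤ)
    (N : ℕ) (hN : Squarefree N) (Wb : Fin r → ℕ → ℝ)
    (hW : ∀ i, ∀ l ∈ N.primeFactors, (Zset (a i) (b i) l).Finite ∧
      ((Zset (a i) (b i) l).ncard : ℝ) ≤ Wb i l)
    (T : Finset ℕ) (hT : ∀ p ∈ T, p.Prime)
    (hd : ∀ (p : ℕ) [Fact p.Prime], p ∈ T → ∀ i, Disc (a i : ZMod p) (b i : ZMod p))
    (θ : ℕ → ℝ) (hθ : ∀ p ∈ T, 0 ≤ θ p)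
    (Ωf : ∀ (p : ℕ) [Fact p.Prime], (∀ i, Pt (a i : ZMod p) (b i : ZMod p)) → Set (ι → ZMod p))
    (hloc : ∀ (p : ℕ) [Fact p.Prime], p ∈ T → ∀ P₀ : ∀ i, Pt (a i : ZMod p) (b i : ZMod p),
      (({t : ι → ZMod p | ∃ (R : ∀ i, Pt (a i : ZMod p) (b i : ZMod p)),
        t ∈ Ωf p (fun i => P₀ i + N • R i)}.ncard : ℕ) : ℝ) ≤
        θ p * (p : ℝ) ^ Fintype.card ι)
    (S' : Set (ι → ℤ)) (hS' : ∀ t ∈ S', Has a b N Ωf (fun p => p ∈ T) t) :
    ((((fun (c : ι → ℤ) (i : ι) => (c i : ZMod (∏ p ∈ T, p))) '' S').ncard : ℕ) : ℝ) ≤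
      (∏ i, ∏ l ∈ N.primeFactors, Wb i l) *
        ((∏ p ∈ T, θ p) * ((∏ p ∈ T, p : ℕ) : ℝ) ^ Fintype.card ι) := by
  set q := ∏ p ∈ T, p with hq
  have hq0 : 0 < q := Finset.prod_pos fun p hp => (hT p hp).pos
  have : NeZero q := ⟨hq0.ne'⟩
  set S : Set (ι → ZMod q) := (fun (c : ι → ℤ) (i : ι) => (c i : ZMod q)) '' S' with hS
  have hpre : ∀ x : S, ∃ t ∈ S', (fun i => (t i : ZMod q)) = x.1 := fun x => x.2
  choose t htS htx using hpre
  have hξ0 : ∀ x : S, Has a b N Ωf (fun p => p ∈ T) (t x) := fun x => hS' (t x) (htS x)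
  choose ξ hξ1 hξ2 hξ3 using hξ0
  have hl : ∀ l ∈ N.primeFactors, N = N / l * l := fun l hl =>
    (Nat.div_mul_cancel (Nat.dvd_of_mem_primeFactors hl)).symm
  have hmem : ∀ (t : S) (i : Fin r) (l : ↥N.primeFactors),
      (fun σ => (N / l.1) • ξ t i σ) ∈ Zset (a i) (b i) l.1 := by
    intro t i l
    refine mem_Zset (hl l.1 l.2) (hξ1 t i) (hξ2 t i) (fun q _ => ?_)
    obtain ⟨P, h, -⟩ := hξ3 t q
    exact ⟨P i, h i⟩
  let β : Type := ∀ (i : Fin r) (l : ↥N.primeFactors), ↥(Zset (a i) (b i) l.1)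
  have hfin : ∀ (i : Fin r) (l : ↥N.primeFactors), Finite ↥(Zset (a i) (b i) l.1) :=
    fun i l => (hW i l.1 l.2).1.to_subtype
  have hβ : Finite β := inferInstance
  let f : S → β := fun t i l => ⟨_, hmem t i l⟩
  have hcardβ : (Nat.card β : ℝ) ≤ ∏ i, ∏ l ∈ N.primeFactors, Wb i l := by
    have h1 : Nat.card β = ∏ i : Fin r, ∏ l : ↥N.primeFactors,
        Nat.card ↥(Zset (a i) (b i) l.1) := by
      simp only [β]
      rw [Nat.card_pi]
      exact Finset.prod_congr rfl fun i _ => Nat.card_pi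
    rw [h1]
    push_cast
    refine Finset.prod_le_prod (fun i _ => Finset.prod_nonneg fun l _ => Nat.cast_nonneg _)
      fun i _ => ?_
    rw [← Finset.prod_coe_sort N.primeFactors (fun l => Wb i l)]
    refine Finset.prod_le_prod (fun l _ => Nat.cast_nonneg _) fun l _ => ?_
    rw [Nat.card_coe_set_eq]
    exact (hW i l.1 l.2).2
  have hM0 : 0 ≤ (∏ p ∈ T, θ p) * (q : ℝ) ^ Fintype.card ι :=
    mul_nonneg (Finset.prod_nonneg hθ) (by positivity)
  refine (card_fiber S f ((∏ p ∈ T, θ p) * (q : ℝ) ^ Fintype.card ι) ?_).trans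
    (mul_le_mul_of_nonneg_right hcardβ hM0)
  intro w
  by_cases hw : ∃ t₀ : S, f t₀ = w
  swap
  · refine ⟨∅, Set.finite_empty, by simpa using hM0, fun t ht => absurd ⟨t, ht⟩ hw⟩
  obtain ⟨t₀, ht₀⟩ := hw
  -- the local conditions of the class `w`
  have key : ∀ p ∈ T, ∃ Ω : Set (ι → ZMod p),
      ((Ω.ncard : ℕ) : ℝ) ≤ θ p * (p : ℝ) ^ Fintype.card ι ∧
      ∀ x : S, f x = w → (fun j => (t x j : ZMod p)) ∈ Ω := by
    intro p hpT
    have : Fact p.Prime := ⟨hT p hpT⟩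
    obtain ⟨red, hred⟩ := exists_redA a b p (hd p hpT)
    obtain ⟨P, hP2, -⟩ := hξ3 t₀ p
    refine ⟨_, hloc p hpT (fun i => red i (P i)), fun t ht => ?_⟩
    obtain ⟨P', hP'2, hP'1⟩ := hξ3 t p
    have hdiff : ∀ i, ∃ R : Pt (a i : ZMod p) (b i : ZMod p),
        red i (P' i) - red i (P i) = N • R := by
      intro i
      refine exists_smul_of_sqf _ N hN fun l hlN => ?_
      have e1 : (fun σ => (N / l) • ξ t i σ) = fun σ => (N / l) • ξ t₀ i σ := by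
        have h1 := congrFun (congrFun (ht.trans ht₀.symm) i) ⟨l, hlN⟩
        exact congrArg Subtype.val h1
      have h1 : LocAt (a i) (b i) l (fun σ => (N / l) • ξ t i σ) p (P' i) :=
        locG_nsmul (hl l hlN) (hP'2 i)
      have h2 : LocAt (a i) (b i) l (fun σ => (N / l) • ξ t i σ) p (P i) := by
        rw [e1]
        exact locG_nsmul (hl l hlN) (hP2 i)
      have h3 := hmem t i ⟨l, hlN⟩
      obtain ⟨Z, hZ⟩ := locAt_unique h3.1 h3.2.1 h1 h2
      refine ⟨red i Z, ?_⟩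
      rw [← map_sub, hZ, map_nsmul]
    choose R hR using hdiff
    refine ⟨R, ?_⟩
    have h2 : (fun i => red i (P i) + N • R i) = fun i => red i (P' i) := by
      funext i
      rw [← hR i]
      abel
    rw [h2]
    exact hP'1 hpT _ (hred P')
  choose Ω hΩ1 hΩ2 using key
  refine ⟨(fun (c : ι → ℤ) (i : ι) => (c i : ZMod q)) ''
    {c : ι → ℤ | ∀ p ∈ T, (fun j => (c j : ZMod p)) ∈ {x | ∃ h : p ∈ T, x ∈ Ω p h}},
    Set.toFinite _, ?_, ?_⟩
  · refine crt_count T hT (fun p => {x | ∃ h : p ∈ T, x ∈ Ω p h}) θ (fun p hp => ?_)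
    have : {x | ∃ h : p ∈ T, x ∈ Ω p h} = Ω p hp := by
      ext x
      exact ⟨fun ⟨_, h⟩ => h, fun h => ⟨hp, h⟩⟩
    rw [this]
    exact hΩ1 p hp
  · intro x hx
    exact ⟨t x, fun p hp => ⟨hp, hΩ2 p hp x hx⟩, htx x⟩

end Pool.Agent.N756.RW
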